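import Mathlib
import Pool.Agent.H379Z.Chess.Grid
import Pool.Agent.H379Z.Chess.TypeE
import Pool.Agent.H379Z.Chess.TypeC

/-!
# The curved chessboard conjecture is false

Let `X` be the preimage in the unit sphere of `ℝ⁴` of the cubic scroll
`x₁² (24 x₃ + 7 x₄) = 25 x₂² x₄` in real projective 3-space.  Its rulings lift to great circles.
Four conics of the scroll are bitangent to the quadric `|x|² = 0` and lift to eight small circles;
together with the lift of the directrix they give nine arcs meeting every ruling.  The
stereographic projection of nine rulings and of these nine arcs is an `8 × 8` grid.  A quartic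
form vanishing on the nine arcs is divisible by the cubic, and the only circles on `X` are the
rulings and finitely many others, so no surface of type (C), (D), (E) contains the grid.
-/

namespace Pool.Agent.Results.MP_d8c3a3_gt.ACounterexample

open Pool.Agent.H379Z.Chess OnePoint

/-- There is an `8 × 8` grid of circular arcs, any two arcs of different collections meeting in
exactly one point, whose union is mapped by no composition of inversions into a set of type (C),
(D) or (E), even if the point at infinity is added to that set. -/
theorem result : ∃ a b : Fin 9 → Set E3, IsGrid 8 a b ∧ (∀ i j, ∃! p, p ∈ a i ∩ b j) ∧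
    ∀ L : List (E3 × ℝ), (∀ s ∈ L, 0 < s.2) → ∀ Y : Set E3, TypeC Y ∨ TypeD Y ∨ TypeE Y →
      ¬ ∀ x ∈ (⋃ i, a i) ∪ (⋃ j, b j), invertAll L (x : OnePoint E3) = ∞ ∨
        ∃ y ∈ Y, invertAll L (x : OnePoint E3) = (y : OnePoint E3) := by
  refine ⟨arcA, fun j => arcB (tj j), grid.1, grid.2, fun L hL Y hY h => ?_⟩
  have hb : Bad Y := bad_of_map (S := Set.Icc (1 / 10) (9 / 10))
    (Set.Icc_infinite (by norm_num))
    (fun t ht => ⟨by linarith [ht.1], by linarith [ht.2]⟩)
    (fun t ht => nine_grid (fun i => (Set.subset_iUnion arcA i).trans Set.subset_union_left) ht)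
    L hL h
  rcases hY with hY | hY | hY
  · exact not_bad_C hY hb
  · exact not_bad_D hY hb
  · exact not_bad_E hY hb

end Pool.Agent.Results.MP_d8c3a3_gt.ACounterexample
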